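import Pool.Agent.H15.SM.BDI
import Pool.Agent.H11.UC.Loop
import Pool.Agent.H98.UC.Strand

set_option autoImplicit false
open Pool.Agent.H7.UC Pool.Agent.H11.UC Pool.Agent.H98.UC Set

/-! MP_2e6055, module ECo: each boundary arc contains a connected set with both marks. -/

namespace Pool.Agent.H22.SM

open Pool.Agent.H15.SM

lemma seg_sub_ES {A : Set Ed} {v : Vx} {k : Fin 3} (h : ed v k ∈ A) :
    segment ℝ (pv v) (pv (nb v k)) ⊆ ES A := by
  intro z hz
  unfold ES
  simp only [mem_iUnion]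
  exact ⟨v, k, h, hz⟩

lemma conn_set {A : Set Ed} {s t : Vx} (h : Conn (ind A) s t) (hs : pv s ∈ ES A) :
    ∃ E : Set ℂ, E ⊆ ES A ∧ IsPreconnected E ∧ IsClosed E ∧ pv s ∈ E ∧ pv t ∈ E := by
  induction h with
  | refl => exact ⟨{pv s}, by simpa using hs, isPreconnected_singleton, isClosed_singleton, rfl, rfl⟩
  | @tail b c _ hbc ih =>
    obtain ⟨E, h1, h2, h3, h4, h5⟩ := ih
    obtain ⟨k, rfl, hk⟩ := hbc
    have hk' : ed b k ∈ A := ind_eq_one.1 hk
    refine ⟨E ∪ segment ℝ (pv b) (pv (nb b k)), union_subset h1 (seg_sub_ES hk'), ?_, ?_, ?_, ?_⟩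
    · exact IsPreconnected.union (pv b) h5 (left_mem_segment ℝ _ _) h2
        (convex_segment _ _).isPreconnected
    · apply h3.union
      rw [segment_eq_image]
      exact (isCompact_Icc.image (by fun_prop)).isClosed
    · exact Or.inl h4
    · exact Or.inr (right_mem_segment ℝ _ _)

theorem eco : ECo := by
  intro U M hU j
  have hdv : ∀ v, dv (ind (↑(M.C j) : Set Ed)) v = ind {M.u 0} v + ind {M.u 1} v := by
    intro v
    rw [M.dvC j v]
    fin_cases j
    · rfl
    · show ind {M.u 1} v + ind {M.u (1 + 1)} v = _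
      rw [add_comm]; rfl
  have hne : M.u 0 ≠ M.u 1 := fun h => absurd (M.inj h) (by decide)
  have hfin : {e | ind (↑(M.C j) : Set Ed) e ≠ 0}.Finite := by
    apply (M.C j).finite_toSet.subset
    intro e he
    by_contra hn
    exact he (ind_not hn)
  have h0 : dv (ind (↑(M.C j) : Set Ed)) (M.u 0) = 1 := by
    rw [hdv, ind_single_self, ind_single_ne hne, add_zero]
  obtain ⟨t, ht, hc, ht1⟩ := odd_partner hfin h0
  have htu : t = M.u 1 := by
    by_contra hn
    rw [hdv, ind_single_ne ht, ind_single_ne hn] at ht1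
    exact absurd ht1 (by decide)
  subst htu
  have hk : ∃ k, ed (M.u 0) k ∈ M.C j := by
    by_contra hn
    push Not at hn
    have e0 : ∀ c, ind (↑(M.C j) : Set Ed) (ed (M.u 0) c) = 0 := fun c =>
      ind_not fun h => hn c (by exact_mod_cast h)
    unfold dv at h0
    rw [e0, e0, e0] at h0
    exact absurd h0 (by decide)
  obtain ⟨k, hk⟩ := hk
  exact conn_set hc (seg_sub_ES (k := k) (by exact_mod_cast hk) (left_mem_segment ℝ _ _))

end Pool.Agent.H22.SM
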