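import Pool.Agent.H15.SM.BDI
import Pool.Agent.H11.UC.Loop
import Pool.Agent.H98.UC.Strand

set_option autoImplicit false
open Pool.Agent.H7.UC Pool.Agent.H11.UC Pool.Agent.H98.UC Set

/-! MP_2e6055, module EI: the two boundary arcs meet only at the marks. -/

namespace Pool.Agent.H22.SM

open Pool.Agent.H15.SM

/-- a point of an edge is a vertex or an interior point -/
lemma seg_cases {v : Vx} {k : Fin 3} {z : ℂ} (h : z ∈ segment ℝ (pv v) (pv (nb v k))) :
    z = pv v ∨ z = pv (nb v k) ∨ ∃ t ∈ Ioo (0:ℝ) 1, ept v k t = z := by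
  obtain ⟨t, ht, rfl⟩ := mem_segment_ept.1 h
  rcases ht.1.eq_or_lt with h0 | h0
  · left; rw [← h0, ept_zero]
  rcases ht.2.eq_or_lt with h1 | h1
  · right; left; rw [h1, ept_one]
  · exact Or.inr (Or.inr ⟨t, ⟨h0, h1⟩, rfl⟩)

lemma open_same {v w : Vx} {k l : Fin 3} {t t' : ℝ} (ht : t ∈ Ioo (0:ℝ) 1) (ht' : t' ∈ Ioo (0:ℝ) 1)
    (h : ept v k t = ept w l t') : ed v k = ed w l := by
  rcases ept_faces ht ht' h with ⟨h1, h2⟩ | ⟨h1, h2⟩
  · obtain ⟨rfl, rfl⟩ := dart_ext h1 h2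
    rfl
  · rw [← fc_nb1 w l] at h1
    rw [← fc_nb2 w l] at h2
    obtain ⟨rfl, rfl⟩ := dart_ext h1 h2
    rw [ed_nb]

/-- two different edges meet only in a common vertex -/
lemma seg_inter {v w : Vx} {k l : Fin 3} (hne : ed v k ≠ ed w l) {z : ℂ}
    (h : z ∈ segment ℝ (pv v) (pv (nb v k))) (h' : z ∈ segment ℝ (pv w) (pv (nb w l))) :
    ∃ x, z = pv x ∧ ed x k = ed v k ∧ ed x l = ed w l := by
  have key : ∀ x y, z = pv x → z = pv y → x = y := fun x y hx hy => pv_inj (hx.symm.trans hy)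
  rcases seg_cases h with h1 | h1 | ⟨t, ht, h1⟩
  · rcases seg_cases h' with h2 | h2 | ⟨t', ht', h2⟩
    · exact ⟨v, h1, rfl, by rw [key v w h1 h2]⟩
    · exact ⟨v, h1, rfl, by rw [key v _ h1 h2, ed_nb]⟩
    · exact absurd (h2.trans h1) (ept_ne_pv ht')
  · rcases seg_cases h' with h2 | h2 | ⟨t', ht', h2⟩
    · exact ⟨nb v k, h1, ed_nb _ _, by rw [key _ w h1 h2]⟩
    · exact ⟨nb v k, h1, ed_nb _ _, by rw [key _ _ h1 h2, ed_nb]⟩
    · exact absurd (h2.trans h1) (ept_ne_pv ht')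
  · rcases seg_cases h' with h2 | h2 | ⟨t', ht', h2⟩
    · exact absurd (h1.trans h2) (ept_ne_pv ht)
    · exact absurd (h1.trans h2) (ept_ne_pv ht)
    · exact absurd (open_same ht ht' (h1.trans h2.symm)) hne

theorem ei : EI := by
  intro U M hU z hz
  obtain ⟨hz0, hz1⟩ := hz
  unfold ES at hz0 hz1
  simp only [mem_iUnion] at hz0 hz1
  obtain ⟨v, k, h0, hs0⟩ := hz0
  obtain ⟨w, l, h1, hs1⟩ := hz1
  have hd : ∀ e, e ∈ M.C 0 → e ∉ M.C 1 := fun e he he' =>
    Finset.disjoint_left.1 (M.disj 0 1 (by decide)) he he'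
  have hne : ed v k ≠ ed w l := by
    intro h
    exact hd _ (by exact_mod_cast h0) (by rw [h]; exact_mod_cast h1)
  obtain ⟨x, hzx, ha, hb⟩ := seg_inter hne hs0 hs1
  have ha0 : ed x k ∈ M.C 0 := by rw [ha]; exact_mod_cast h0
  have hb1 : ed x l ∈ M.C 1 := by rw [hb]; exact_mod_cast h1
  have hkl : k ≠ l := by
    rintro rfl
    exact hd _ ha0 hb1
  have hBa := isB_iff'.1 ((M.mem _).2 ⟨0, ha0⟩)
  have hBb := isB_iff'.1 ((M.mem _).2 ⟨1, hb1⟩)
  have huniq : ∀ c, ed x c ∈ M.C 0 → c = k := by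
    intro c hc
    have hcl : c ≠ l := by
      rintro rfl
      exact hd _ hc hb1
    have hBc := isB_iff'.1 ((M.mem _).2 ⟨0, hc⟩)
    rcases hBa with a | a
    · rcases hBb with b | b
      · exact absurd (inwE_unique a b) hkl
      · rcases hBc with c' | c'
        · exact inwE_unique c' a
        · exact absurd (outE_unique c' b) hcl
    · rcases hBb with b | b
      · rcases hBc with c' | c'
        · exact absurd (inwE_unique c' b) hcl
        · exact outE_unique c' a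
      · exact absurd (outE_unique a b) hkl
  have hdv := M.dvC 0 x
  have h1' : dv (ind (↑(M.C 0) : Set Ed)) x = 1 := by
    have e1 : ind (↑(M.C 0) : Set Ed) (ed x k) = 1 := ind_mem (by exact_mod_cast ha0)
    have e0 : ∀ c, c ≠ k → ind (↑(M.C 0) : Set Ed) (ed x c) = 0 := fun c hc =>
      ind_not fun h => hc (huniq c (by exact_mod_cast h))
    have h3 : ∀ c, ind (↑(M.C 0) : Set Ed) (ed x c) = if c = k then 1 else 0 := by
      intro c
      split_ifs with hc
      · rw [hc]; exact e1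
      · exact e0 c hc
    have h4 : ∀ a : Fin 3, ((if (0 : Fin 3) = a then 1 else 0) + (if (1 : Fin 3) = a then 1 else 0) +
        (if (2 : Fin 3) = a then 1 else 0) : ZMod 2) = 1 := by decide
    unfold dv
    rw [h3, h3, h3]
    exact h4 k
  rw [h1'] at hdv
  by_cases hx0 : x = M.u 0
  · left; rw [hzx, hx0]
  by_cases hx1 : x = M.u (0 + 1)
  · right; rw [hzx, hx1]; rfl
  · rw [ind_single_ne hx0, ind_single_ne hx1] at hdv
    exact absurd hdv (by decide)

end Pool.Agent.H22.SM
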